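import Mathlib

/-!
# Cubic growth from three algebraically independent elements (job 4608, second prover)
-/

set_option autoImplicit false

open Module

namespace Pool.Agent.TH279.J3

theorem c2 (r : ℕ) : ∑ q ∈ Finset.range (r + 1), (q + 1) = (r + 2).choose 2 := by
  induction r with
  | zero => rfl
  | succ n ih =>
    rw [Finset.sum_range_succ, ih, Nat.choose_succ_succ' (n + 2) 1, Nat.choose_one_right]
    ring

theorem c3 (t : ℕ) : ∑ r ∈ Finset.range (t + 1), (r + 2).choose 2 = (t + 3).choose 3 := by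
  induction t with
  | zero => rfl
  | succ n ih =>
    rw [Finset.sum_range_succ, ih, Nat.choose_succ_succ' (n + 3) 2]
    ring

/-- the index set `p ≤ q ≤ r ≤ t` -/
def Idx (t : ℕ) : Finset (Σ _ : ℕ, Σ _ : ℕ, ℕ) :=
  (Finset.range (t + 1)).sigma fun r => (Finset.range (r + 1)).sigma fun q => Finset.range (q + 1)

theorem card_Idx (t : ℕ) : (Idx t).card = (t + 3).choose 3 := by
  unfold Idx
  rw [Finset.card_sigma, ← c3]
  refine Finset.sum_congr rfl fun r _ => ?_
  rw [Finset.card_sigma, ← c2]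
  refine Finset.sum_congr rfl fun q _ => ?_
  rw [Finset.card_range]

theorem mem_Idx {t r q p : ℕ} : (⟨r, q, p⟩ : Σ _ : ℕ, Σ _ : ℕ, ℕ) ∈ Idx t ↔
    r ≤ t ∧ q ≤ r ∧ p ≤ q := by
  unfold Idx
  simp only [Finset.mem_sigma, Finset.mem_range]
  omega

theorem growth_three {F K : Type*} [Field F] [Field K] [Algebra F K] {W : Submodule F K}
    [FiniteDimensional F W] (h1 : (1 : K) ∈ W) {a b c q : K} (hq : q ≠ 0)
    (hind : AlgebraicIndependent F ![a, b, c]) (hq' : q ∈ W) (ha : a * q ∈ W) (hb : b * q ∈ W)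
    (hc : c * q ∈ W) (t : ℕ) :
    (t + 3).choose 3 ≤ finrank F (W ^ t : Submodule F K) := by
  have hfin : FiniteDimensional F (W ^ t : Submodule F K) := by
    have hW : W.FG := (Module.Finite.iff_fg (N := W)).1 inferInstance
    exact (Module.Finite.iff_fg (N := W ^ t)).2 (hW.pow t)
  let e : Idx t → (Fin 3 →₀ ℕ) := fun x =>
    Finsupp.equivFunOnFinite.symm ![x.1.2.2, x.1.2.1 - x.1.2.2, x.1.1 - x.1.2.1]
  have he : Function.Injective e := by
    rintro ⟨⟨r, s, p⟩, hx⟩ ⟨⟨r', s', p'⟩, hx'⟩ h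
    rw [mem_Idx] at hx hx'
    have h0 := Finsupp.equivFunOnFinite.symm.injective h
    have e0 := congrFun h0 0
    have e1 := congrFun h0 1
    have e2 := congrFun h0 2
    simp only [Matrix.cons_val_zero, Matrix.cons_val_one, Matrix.cons_val_two,
      Matrix.cons_val, Matrix.tail_cons, Matrix.head_cons] at e0 e1 e2
    have f0 : p = p' := e0
    have f1 : s = s' := by omega
    have f2 : r = r' := by omega
    subst f0 f1 f2
    rfl
  let φ : MvPolynomial (Fin 3) F →ₗ[F] K := (MvPolynomial.aeval ![a, b, c]).toLinearMap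
  have hφ : Function.Injective φ := hind
  have l1 : LinearIndependent F (fun x : Idx t =>
      (MvPolynomial.monomial (e x) (1 : F) : MvPolynomial (Fin 3) F)) := by
    have := (MvPolynomial.basisMonomials (Fin 3) F).linearIndependent
    have h2 := this.comp e he
    simpa [Function.comp_def] using h2
  have l2 := l1.map' φ (LinearMap.ker_eq_bot.2 hφ)
  have l3 := l2.map' (LinearMap.mulLeft F (q ^ t)) (by
    rw [LinearMap.ker_eq_bot]
    intro x y hxy
    exact mul_left_cancel₀ (pow_ne_zero t hq) hxy)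
  have key : ∀ x : Idx t, (LinearMap.mulLeft F (q ^ t)) (φ (MvPolynomial.monomial (e x) 1)) ∈
      W ^ t := by
    rintro ⟨⟨r, s, p⟩, hx⟩
    rw [mem_Idx] at hx
    obtain ⟨hx1, hx2, hx3⟩ := hx
    have h3 : φ (MvPolynomial.monomial (e ⟨⟨r, s, p⟩, mem_Idx.2 ⟨hx1, hx2, hx3⟩⟩) 1) =
        a ^ p * b ^ (s - p) * c ^ (r - s) := by
      show MvPolynomial.aeval ![a, b, c] (MvPolynomial.monomial _ (1 : F)) = _
      rw [MvPolynomial.aeval_monomial, map_one, one_mul, Finsupp.prod_fintype _ _ (by simp),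
        Fin.prod_univ_three]
      rfl
    have h4 : q ^ t * (a ^ p * b ^ (s - p) * c ^ (r - s)) =
        (a * q) ^ p * (b * q) ^ (s - p) * (c * q) ^ (r - s) * q ^ (t - r) := by
      have h5 : q ^ t = q ^ p * q ^ (s - p) * q ^ (r - s) * q ^ (t - r) := by
        rw [← pow_add, ← pow_add, ← pow_add]
        congr 1
        omega
      rw [h5]
      ring
    show q ^ t * _ ∈ W ^ t
    rw [h3, h4]
    have h6 : W ^ t = W ^ p * W ^ (s - p) * W ^ (r - s) * W ^ (t - r) := by
      rw [← pow_add, ← pow_add, ← pow_add]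
      congr 1
      omega
    rw [h6]
    exact Submodule.mul_mem_mul (Submodule.mul_mem_mul (Submodule.mul_mem_mul
      (Submodule.pow_mem_pow _ ha _) (Submodule.pow_mem_pow _ hb _))
      (Submodule.pow_mem_pow _ hc _)) (Submodule.pow_mem_pow _ hq' _)
  have l4 : LinearIndependent F (fun x : Idx t =>
      (⟨_, key x⟩ : (W ^ t : Submodule F K))) := by
    refine LinearIndependent.of_comp (W ^ t).subtype ?_
    exact l3
  have h7 := l4.fintype_card_le_finrank
  rw [Fintype.card_coe, card_Idx] at h7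
  exact h7

end Pool.Agent.TH279.J3
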